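import Pool.Graph.R_seed8.H314.FlowDefs

/-! Viscosity sub- and supersolutions with touching test functions. -/

set_option autoImplicit false

open Set Filter Topology Metric
open scoped ContDiff ComplexOrder
open Pool.Agent.H314.Flow

namespace Pool.Agent.H75.Dip

/-- Bounded upper semicontinuous viscosity subsolutions of the flow; the test functions touch `u`. -/
structure IsSub {X : Type} [TopologicalSpace X] {n : ℕ} {A : HolAtlas X n}
    (D : FlowData A) (u : ℝ → X → ℝ) : Prop where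
  bdd : ∃ C, ∀ t ∈ Ico 0 D.T, ∀ x, |u t x| ≤ C
  usc : UpperSemicontinuousOn (fun p : ℝ × X => u p.1 p.2) (Ico 0 D.T ×ˢ univ)
  visc : ∀ i, ∀ t₀ ∈ Ioo 0 D.T, ∀ z₀ ∈ (A.chart i).target, ∀ q : ℝ → Cn n → ℝ, IsTest q t₀ z₀ →
    q t₀ z₀ = u t₀ ((A.chart i).symm z₀) →
    IsLocalMax (fun p : ℝ × Cn n => u p.1 ((A.chart i).symm p.2) - q p.1 p.2) (t₀, z₀) →
    Real.exp (deriv (fun t => q t z₀) t₀ + D.F t₀ ((A.chart i).symm z₀) (q t₀ z₀)) *
        (D.m t₀ ((A.chart i).symm z₀) * (D.kappa.mat i z₀).det.re) ≤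
      posDet ((D.omega t₀).mat i z₀ + complexHessian (q t₀) z₀)

/-- Bounded lower semicontinuous viscosity supersolutions; the test functions touch `v`. -/
structure IsSuper {X : Type} [TopologicalSpace X] {n : ℕ} {A : HolAtlas X n}
    (D : FlowData A) (v : ℝ → X → ℝ) : Prop where
  bdd : ∃ C, ∀ t ∈ Ico 0 D.T, ∀ x, |v t x| ≤ C
  lsc : LowerSemicontinuousOn (fun p : ℝ × X => v p.1 p.2) (Ico 0 D.T ×ˢ univ)
  visc : ∀ i, ∀ t₀ ∈ Ioo 0 D.T, ∀ z₀ ∈ (A.chart i).target, ∀ q : ℝ → Cn n → ℝ, IsTest q t₀ z₀ →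
    q t₀ z₀ = v t₀ ((A.chart i).symm z₀) →
    IsLocalMin (fun p : ℝ × Cn n => v p.1 ((A.chart i).symm p.2) - q p.1 p.2) (t₀, z₀) →
    posDet ((D.omega t₀).mat i z₀ + complexHessian (q t₀) z₀) ≤
      Real.exp (deriv (fun t => q t z₀) t₀ + D.F t₀ ((A.chart i).symm z₀) (q t₀ z₀)) *
        (D.m t₀ ((A.chart i).symm z₀) * (D.kappa.mat i z₀).det.re)

end Pool.Agent.H75.Dip
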