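import Pool.Graph.R_seed8.H314.DipProof
import Pool.Agent.H75.Dip.Defs

/-! The comparison principle fails for every right-hand side and with every initial gap.
The surface, the forms and the function `gS` are those of the library module
`Pool.Graph.R_seed8.H314.DipProof`; the two viscosity lemmas are adapted from it. -/

set_option autoImplicit false

open Set Filter Topology Metric
open scoped ContDiff ComplexOrder
open Pool.Agent.H314.Flow

namespace Pool.Agent.H75.Dip

/-- the data with a general family `ω_t`, a general function `F` and the volume form `m κ²` -/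
noncomputable def dat (T : ℝ) (om : ℝ → ClosedForm atlasS) (F : ℝ → S → ℝ → ℝ) (m : ℝ → S → ℝ) :
    FlowData atlasS where
  T := T
  kappa := kappaS
  theta := thetaS
  omega := om
  F := F
  m := m

theorem dat_admissible {T B : ℝ} {om : ℝ → ClosedForm atlasS} {F : ℝ → S → ℝ → ℝ} {m : ℝ → S → ℝ}
    (hT : 0 < T)
    (hO : ∀ t ∈ Ico 0 T, ∀ i, ∀ z ∈ (atlasS.chart i).target,
      ((om t).mat i z - thetaS.mat i z).PosSemidef)
    (hOc : ∀ i, ContinuousOn (fun p : ℝ × Cn 2 => (om p.1).mat i p.2)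
      (Ico 0 T ×ˢ (atlasS.chart i).target))
    (hF : ContinuousOn (fun p : ℝ × S × ℝ => F p.1 p.2.1 p.2.2) (Ico 0 T ×ˢ univ))
    (hFm : ∀ t ∈ Ico 0 T, ∀ x, Monotone (F t x))
    (hm : ContinuousOn (fun p : ℝ × S => m p.1 p.2) (Ico 0 T ×ˢ univ))
    (hmB : ∀ t ∈ Ico 0 T, ∀ x, Real.exp (-B) ≤ m t x ∧ m t x ≤ Real.exp B) :
    (dat T om F m).Admissible where
  time := hT
  kahler := fun i z _ => kappa_pd i z
  theta_semipos := fun i z _ => theta_psd i z
  theta_big := ⟨(false, 0), ![1, 0], mem_univ _, theta_pd_pt⟩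
  omega_semipos := by
    intro t ht i z hz
    have h1 := hO t ht i z hz
    have h2 := (theta_psd i z).add h1
    have h3 : complexHessian (potT i) z + ((om t).mat i z - thetaS.mat i z) = (om t).mat i z := by
      show thetaS.mat i z + ((om t).mat i z - thetaS.mat i z) = (om t).mat i z
      abel
    rwa [h3] at h2
  omega_big := by
    intro t ht
    refine ⟨(false, 0), ![1, 0], mem_univ _, ?_⟩
    have h1 := hO t ht (false, 0) ![1, 0] (mem_univ _)
    have h2 := theta_pd_pt.add_posSemidef h1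
    have h3 : complexHessian (potT (false, 0)) ![1, 0] +
        ((om t).mat (false, 0) ![1, 0] - thetaS.mat (false, 0) ![1, 0]) =
        (om t).mat (false, 0) ![1, 0] := by
      show thetaS.mat (false, 0) ![1, 0] +
        ((om t).mat (false, 0) ![1, 0] - thetaS.mat (false, 0) ![1, 0]) = _
      abel
    rwa [h3] at h2
  omega_ge := hO
  omega_cont := hOc
  F_cont := hF
  F_mono := hFm
  m_nonneg := fun t ht x => (Real.exp_pos _).le.trans (hmB t ht x).1
  m_cont := hm
  m_bdd := ⟨Real.exp B, fun t ht x => (hmB t ht x).2⟩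

/-- the subsolution -/
noncomputable def uG (a : ℝ) (t : ℝ) (x : S) : ℝ := gS x - a * t

open Classical in
/-- the supersolution -/
noncomputable def vG (c : ℝ → ℝ) (b d : ℝ) (t : ℝ) (x : S) : ℝ :=
  if x.1.1 0 0 = 1 then c t else d + b * t

theorem uG_visc {B M f : ℝ} (hM : M ≤ Real.exp B) (hf : f ≤ B) (i : Idx) (t₀ : ℝ) (z₀ : Cn 2)
    {Om : Matrix (Fin 2) (Fin 2) ℂ} (hOm : (Om - complexHessian (potT i) z₀).PosSemidef)
    (q : ℝ → Cn 2 → ℝ) (hq : IsTest q t₀ z₀)
    (hmax : IsLocalMax (fun p : ℝ × Cn 2 => uG (3 + 2 * B) p.1 (param i p.2) - q p.1 p.2) (t₀, z₀)) :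
    Real.exp (deriv (fun t => q t z₀) t₀ + f) *
        (M * (complexHessian (fun z => potT i z + potE i z) z₀).det.re) ≤
      posDet (Om + complexHessian (q t₀) z₀) := by
  have hspace := slice_space (α := fun t z => gS (param i z) - (3 + 2 * B) * t - q t z) hmax
  have htime := slice_time (α := fun t z => gS (param i z) - (3 + 2 * B) * t - q t z) hmax
  -- the time derivative of the test function
  have hqt : deriv (fun t => q t z₀) t₀ = -(3 + 2 * B) := by
    have h1 : HasDerivAt (fun t => q t z₀) (deriv (fun t => q t z₀) t₀) t₀ :=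
      (hq.1.differentiableAt (by norm_num)).hasDerivAt
    have h2 : HasDerivAt (fun t => gS (param i z₀) - (3 + 2 * B) * t - q t z₀)
        (0 - (3 + 2 * B) * 1 - deriv (fun t => q t z₀) t₀) t₀ :=
      ((hasDerivAt_const t₀ (gS (param i z₀))).sub ((hasDerivAt_id t₀).const_mul (3 + 2 * B))).sub h1
    have h3 := htime.hasDerivAt_eq_zero h2
    linarith
  have hmaxz : IsLocalMax (fun y => gS (param i y) - q t₀ y) z₀ := by
    filter_upwards [hspace] with y hy
    linarith
  have hκ : 0 < (complexHessian (fun z => potT i z + potE i z) z₀).det.re := kappa_det_pos i z₀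
  by_cases hz : z₀ 0 = 0
  · exact (no_test i z₀ hz (q t₀) hq.2 hmaxz).elim
  · -- comparison of Hessians
    have hU := UU_contDiffAt i z₀ hz
    have hP : ContDiffAt ℝ 2 (potT i) z₀ := (potT_contDiff i).contDiffAt
    have hsum : ContDiffAt ℝ 2 (fun y => potT i y + q t₀ y) z₀ := hP.add hq.2
    have hmax2 : IsLocalMax (fun y => UU i y - (potT i y + q t₀ y)) z₀ := by
      filter_upwards [hmaxz] with y hy
      rw [gS_param, gS_param] at hy
      linarith
    have hpsd := psd_of_localMin hsum hU hmax2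
    rw [complexHessian_add hP hq.2] at hpsd
    obtain ⟨hUpsd, hUdet⟩ := U_psd_det i z₀ hz
    have hpsd2 := hpsd.add hOm
    have hA : Om + complexHessian (q t₀) z₀ =
        complexHessian (UU i) z₀ + (complexHessian (potT i) z₀ + complexHessian (q t₀) z₀ -
          complexHessian (UU i) z₀ + (Om - complexHessian (potT i) z₀)) := by abel
    have hApsd : (Om + complexHessian (q t₀) z₀).PosSemidef := by
      rw [hA]; exact hUpsd.add hpsd2
    have hdet : (complexHessian (UU i) z₀).det.re ≤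
        (Om + complexHessian (q t₀) z₀).det.re := by
      rw [hA]; exact det_mono hUpsd hpsd2
    rw [hqt]
    unfold posDet
    rw [if_pos hApsd]
    refine le_trans ?_ (hUdet.trans hdet)
    have h1 : Real.exp (-(3 + 2 * B) + f) * M ≤ Real.exp (-3) := by
      calc Real.exp (-(3 + 2 * B) + f) * M ≤ Real.exp (-(3 + 2 * B) + f) * Real.exp B :=
            mul_le_mul_of_nonneg_left hM (Real.exp_pos _).le
        _ = Real.exp (-(3 + 2 * B) + f + B) := (Real.exp_add _ _).symm
        _ ≤ Real.exp (-3) := Real.exp_le_exp.2 (by linarith)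
    calc _ = (Real.exp (-(3 + 2 * B) + f) * M) *
          (complexHessian (fun z => potT i z + potE i z) z₀).det.re := by ring
      _ ≤ _ := mul_le_mul_of_nonneg_right h1 hκ.le

theorem uG_continuous (a : ℝ) : Continuous (fun p : ℝ × S => uG a p.1 p.2) := by
  unfold uG
  exact (gS_continuous.comp continuous_snd).sub (continuous_const.mul continuous_fst)

theorem uG_bdd {a T : ℝ} (ha : 0 ≤ a) (t : ℝ) (ht : t ∈ Ico 0 T) (x : S) :
    |uG a t x| ≤ 1 + a * T := by
  have h1 := gS_nonneg x
  have h2 := gS_le x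
  have h3 : a * t ≤ a * T := mul_le_mul_of_nonneg_left ht.2.le ha
  have h4 : 0 ≤ a * t := mul_nonneg ha ht.1
  unfold uG
  rw [abs_le]
  constructor <;> linarith

theorem vG_visc {c : ℝ → ℝ} {b d B M f : ℝ} (hM : Real.exp (-B) ≤ M) (hb : 4 * B ≤ b)
    (i : Idx) (t₀ : ℝ) (z₀ : Cn 2) (hf : (param i z₀).1.1 0 0 ≠ 1 → -B ≤ f)
    {Om : Matrix (Fin 2) (Fin 2) ℂ} (hOm : (Om - complexHessian (potT i) z₀).PosSemidef)
    (hOm' : (((Real.exp B : ℝ) : ℂ) • complexHessian (potT i) z₀ - Om).PosSemidef)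
    (q : ℝ → Cn 2 → ℝ) (hq : IsTest q t₀ z₀)
    (hmin : IsLocalMin (fun p : ℝ × Cn 2 => vG c b d p.1 (param i p.2) - q p.1 p.2) (t₀, z₀)) :
    posDet (Om + complexHessian (q t₀) z₀) ≤
      Real.exp (deriv (fun t => q t z₀) t₀ + f) *
        (M * (complexHessian (fun z => potT i z + potE i z) z₀).det.re) := by
  have hM0 : 0 ≤ M := (Real.exp_pos _).le.trans hM
  have hmax : IsLocalMax (fun p : ℝ × Cn 2 =>
      (fun t z => q t z - vG c b d t (param i z)) p.1 p.2) (t₀, z₀) := by
    filter_upwards [hmin] with p hp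
    linarith
  have hκ : 0 < (complexHessian (fun z => potT i z + potE i z) z₀).det.re := kappa_det_pos i z₀
  by_cases hE : (param i z₀).1.1 0 0 = 1
  · -- on the exceptional curve
    obtain ⟨hi, hz⟩ := (E_iff' i z₀).1 hE
    have hspace := slice_space (α := fun t z => q t z - vG c b d t (param i z)) hmax
    -- the test function has a local maximum along the curve
    have hline : ∀ v : Cn 2, v 0 = 0 → hess (q t₀) z₀ v v ≤ 0 := by
      intro v hv
      apply hess_nonpos_line (q t₀) z₀ v hq.2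
      have hc : Tendsto (fun t : ℝ => z₀ + t • v) (𝓝 0) (𝓝 z₀) := by
        have hline : Continuous (fun t : ℝ => z₀ + t • v) := by fun_prop
        simpa using hline.tendsto 0
      filter_upwards [hc.eventually hspace] with t ht
      have h1 : (param i (z₀ + t • v)).1.1 0 0 = 1 := by
        rw [E_iff']
        exact ⟨hi, by simp [hz, hv]⟩
      unfold vG at ht
      rw [if_pos h1, if_pos hE] at ht
      simp only [zero_smul, add_zero]
      linarith
    have h11 : ((complexHessian (q t₀) z₀) 1 1).re ≤ 0 := by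
      have h1 := hline (eR 1) (by simp [eR])
      have h2 := hline (eI 1) (by simp [eI])
      unfold complexHessian
      simp only [Matrix.of_apply]
      simp
      linarith
    have hθ11 : ((complexHessian (potT i) z₀) 1 1).re = 0 := by
      obtain ⟨a, b⟩ := i
      simp only at hi
      subst hi
      rw [theta0_eq b z₀ rfl rfl rfl]
      simp [frm, hz]
    have hOm11 : (Om 1 1).re ≤ 0 := by
      have h5 := (psd_entries hOm').2.1
      rw [Matrix.sub_apply, Matrix.smul_apply, Complex.sub_re, smul_eq_mul, Complex.re_ofReal_mul,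
        hθ11, mul_zero] at h5
      linarith
    have hpos : posDet (Om + complexHessian (q t₀) z₀) ≤ 0 := by
      unfold posDet
      split_ifs with hA
      · obtain ⟨a0, a1, adet, -⟩ := psd_entries hA
        have h3 : ((Om + complexHessian (q t₀) z₀) 1 1).re ≤ 0 := by
          rw [Matrix.add_apply, Complex.add_re]; linarith
        have h4 : ((Om + complexHessian (q t₀) z₀) 1 1).re = 0 :=
          le_antisymm h3 a1
        rw [adet, h4, mul_zero, zero_sub, neg_nonpos]
        exact Complex.normSq_nonneg _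
      · exact le_refl _
    refine le_trans hpos ?_
    positivity
  · -- off the exceptional curve
    have hev : ∀ᶠ p : ℝ × Cn 2 in 𝓝 (t₀, z₀), (param i p.2).1.1 0 0 ≠ 1 := by
      have h1 : ∀ᶠ x' : S in 𝓝 (param i z₀), x'.1.1 0 0 ≠ 1 := E_closed.isOpen_compl.mem_nhds hE
      have h2 : Tendsto (fun p : ℝ × Cn 2 => param i p.2) (𝓝 (t₀, z₀)) (𝓝 (param i z₀)) :=
        ((param_continuous i).comp continuous_snd).tendsto (t₀, z₀)
      exact h2.eventually h1
    have hqmax : IsLocalMax (fun p : ℝ × Cn 2 => q p.1 p.2 - (d + b * p.1)) (t₀, z₀) := by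
      filter_upwards [hmax, hev] with p h1 h2
      unfold vG at h1
      rw [if_neg h2, if_neg hE] at h1
      exact h1
    have hspace := slice_space (α := fun t z => q t z - (d + b * t)) hqmax
    have htime := slice_time (α := fun t z => q t z - (d + b * t)) hqmax
    have hqt : deriv (fun t => q t z₀) t₀ = b := by
      have h1 : HasDerivAt (fun t => q t z₀) (deriv (fun t => q t z₀) t₀) t₀ :=
        (hq.1.differentiableAt (by norm_num)).hasDerivAt
      have h2 : HasDerivAt (fun t => q t z₀ - (d + b * t))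
          (deriv (fun t => q t z₀) t₀ - (0 + b * 1)) t₀ :=
        h1.sub ((hasDerivAt_const t₀ d).add ((hasDerivAt_id t₀).const_mul b))
      have h3 := htime.hasDerivAt_eq_zero h2
      linarith
    have hspace' : IsLocalMax (fun z => q t₀ z) z₀ := by
      filter_upwards [hspace] with z hz
      linarith
    have hpsd : (complexHessian (fun _ : Cn 2 => (0 : ℝ)) z₀ -
        complexHessian (q t₀) z₀).PosSemidef := by
      apply psd_of_localMin contDiffAt_const hq.2
      simpa using hspace'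
    rw [hessian_const, zero_sub] at hpsd
    have hOmpsd : Om.PosSemidef := by
      have h2 := (theta_psd i z₀).add hOm
      have h3 : complexHessian (potT i) z₀ + (Om - complexHessian (potT i) z₀) = Om := by abel
      rwa [h3] at h2
    have hle : posDet (Om + complexHessian (q t₀) z₀) ≤ Om.det.re := by
      unfold posDet
      split_ifs with hA
      · have h1 := det_mono hA hpsd
        have h2 : Om + complexHessian (q t₀) z₀ +
            -complexHessian (q t₀) z₀ = Om := by abel
        rw [h2] at h1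
        exact h1
      · exact (psd_entries hOmpsd).2.2.2
    have hOmdet : Om.det.re ≤ Real.exp (2 * B) * (complexHessian (potT i) z₀).det.re := by
      have h1 := det_mono hOmpsd hOm'
      have h2 : Om + (((Real.exp B : ℝ) : ℂ) • complexHessian (potT i) z₀ - Om) =
          ((Real.exp B : ℝ) : ℂ) • complexHessian (potT i) z₀ := by abel
      rw [h2, Matrix.det_smul, Fintype.card_fin] at h1
      have h3 : (((Real.exp B : ℝ) : ℂ) ^ 2 * (complexHessian (potT i) z₀).det).re =
          Real.exp (2 * B) * (complexHessian (potT i) z₀).det.re := by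
        rw [← Complex.ofReal_pow, Complex.re_ofReal_mul, ← Real.exp_nat_mul]
        norm_num
      rwa [h3] at h1
    have hOmdet' : Om.det.re ≤
        Real.exp (2 * B) * (complexHessian (fun z => potT i z + potE i z) z₀).det.re :=
      hOmdet.trans (mul_le_mul_of_nonneg_left (theta_det_le i z₀) (Real.exp_pos _).le)
    rw [hqt]
    refine (hle.trans hOmdet').trans ?_
    have h1 : Real.exp (2 * B) ≤ Real.exp (b + f) * M := by
      calc Real.exp (2 * B) ≤ Real.exp (b + f + -B) := Real.exp_le_exp.2 (by linarith [hf hE])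
        _ = Real.exp (b + f) * Real.exp (-B) := Real.exp_add _ _
        _ ≤ Real.exp (b + f) * M := mul_le_mul_of_nonneg_left hM (Real.exp_pos _).le
    calc Real.exp (2 * B) * (complexHessian (fun z => potT i z + potE i z) z₀).det.re
        ≤ (Real.exp (b + f) * M) * (complexHessian (fun z => potT i z + potE i z) z₀).det.re :=
          mul_le_mul_of_nonneg_right h1 hκ.le
      _ = _ := by ring

theorem vG_bdd {c : ℝ → ℝ} {b d C₀ T : ℝ} (hc : ∀ t ∈ Ico 0 T, |c t| ≤ C₀) (hb : 0 ≤ b) (t : ℝ)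
    (ht : t ∈ Ico 0 T) (x : S) : |vG c b d t x| ≤ C₀ + |d| + b * T := by
  have h5 : b * t ≤ b * T := mul_le_mul_of_nonneg_left ht.2.le hb
  have h6 : 0 ≤ b * t := mul_nonneg hb ht.1
  have h7 := hc t ht
  have h8 := (abs_nonneg (c t)).trans h7
  have h9 := neg_abs_le d
  have h10 := le_abs_self d
  have h12 := abs_nonneg d
  unfold vG
  split_ifs
  · linarith
  · rw [abs_le]
    constructor <;> linarith

theorem vG_lsc {c : ℝ → ℝ} {b d C₀ T : ℝ} (hcc : ContinuousOn c (Ico 0 T))
    (hc : ∀ t ∈ Ico 0 T, |c t| ≤ C₀) (hb : 0 ≤ b) (hcd : C₀ ≤ d) :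
    LowerSemicontinuousOn (fun p : ℝ × S => vG c b d p.1 p.2) (Ico 0 T ×ˢ univ) := by
  intro p hp y hy
  obtain ⟨t, x⟩ := p
  replace hy : y < vG c b d t x := hy
  have ht : t ∈ Ico 0 T := hp.1
  by_cases hx : x.1.1 0 0 = 1
  · have h1 : y < c t := by
      unfold vG at hy; rw [if_pos hx] at hy; exact hy
    have h2 : ∀ᶠ p' : ℝ × S in 𝓝[Ico 0 T ×ˢ univ] (t, x), y < c p'.1 := by
      have hc1 : Tendsto (fun p' : ℝ × S => p'.1) (𝓝[Ico 0 T ×ˢ univ] (t, x)) (𝓝[Ico 0 T] t) := by
        refine tendsto_nhdsWithin_iff.2 ⟨(continuous_fst.tendsto _).mono_left nhdsWithin_le_nhds, ?_⟩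
        filter_upwards [self_mem_nhdsWithin] with p hp
        exact hp.1
      exact ((hcc t ht).tendsto.comp hc1).eventually_const_lt h1
    filter_upwards [h2, self_mem_nhdsWithin] with p' h3 h4
    have h7 : 0 ≤ b * p'.1 := mul_nonneg hb h4.1.1
    have h8 := (le_abs_self _).trans (hc p'.1 h4.1)
    unfold vG
    split_ifs
    · exact h3
    · linarith
  · have h1 : y < d + b * t := by
      unfold vG at hy; rw [if_neg hx] at hy; exact hy
    have h2 : ∀ᶠ p' : ℝ × S in 𝓝 (t, x), p'.2.1.1 0 0 ≠ 1 := by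
      have h3 : ∀ᶠ x' : S in 𝓝 x, x'.1.1 0 0 ≠ 1 := E_closed.isOpen_compl.mem_nhds hx
      have hc : Tendsto (fun p' : ℝ × S => p'.2) (𝓝 (t, x)) (𝓝 x) :=
        continuous_snd.tendsto (t, x)
      exact hc.eventually h3
    have h4 : ∀ᶠ p' : ℝ × S in 𝓝 (t, x), y < d + b * p'.1 := by
      have hc : Tendsto (fun p' : ℝ × S => d + b * p'.1) (𝓝 (t, x)) (𝓝 (d + b * t)) :=
        (continuous_const.add (continuous_const.mul continuous_fst)).tendsto (t, x)
      exact hc.eventually_const_lt h1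
    filter_upwards [nhdsWithin_le_nhds h2, nhdsWithin_le_nhds h4] with p' h3 h5
    unfold vG
    rw [if_neg h3]; exact h5

/-- a point of the exceptional curve -/
noncomputable def ptE : S := param (false, 0) ![0, 0]

theorem ptE_mem : ptE.1.1 0 0 = 1 := by
  unfold ptE
  rw [E_iff']; simp

theorem gS_of_mem {x : S} (h : x.1.1 0 0 = 1) : gS x = 0 := by
  unfold gS; rw [h]; simp

theorem main {T B : ℝ} (hB : 0 ≤ B) {om : ℝ → ClosedForm atlasS} {F : ℝ → S → ℝ → ℝ}
    {m : ℝ → S → ℝ}
    (hO : ∀ t ∈ Ico 0 T, ∀ i, ∀ z ∈ (atlasS.chart i).target,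
      ((om t).mat i z - thetaS.mat i z).PosSemidef ∧
      (((Real.exp B : ℝ) : ℂ) • thetaS.mat i z - (om t).mat i z).PosSemidef)
    (hFm : ∀ t ∈ Ico 0 T, ∀ x, Monotone (F t x) ∧ -B ≤ F t x 0 ∧ F t x 1 ≤ B)
    (hmB : ∀ t ∈ Ico 0 T, ∀ x, Real.exp (-B) ≤ m t x ∧ m t x ≤ Real.exp B) :
    (IsSub (dat T om F m) (uG (3 + 2 * B)) ∧
      ((∀ t x r s, F t x r = F t x s) → IsSubsolution (dat T om F m) (uG (3 + 2 * B)))) ∧
    ∀ (c : ℝ → ℝ) (C₀ d : ℝ), ContinuousOn c (Ico 0 T) → (∀ t ∈ Ico 0 T, |c t| ≤ C₀) → 0 ≤ C₀ →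
      C₀ ≤ d →
      IsSuper (dat T om F m) (vG c (4 * B) d) ∧
      ((∀ t x r s, F t x r = F t x s) → IsSupersolution (dat T om F m) (vG c (4 * B) d)) := by
  have ha0 : 0 ≤ 3 + 2 * B := by positivity
  have hb0 : 0 ≤ 4 * B := by positivity
  have hF1' : ∀ t ∈ Ico 0 T, ∀ x, ∀ r ≤ 1, F t x r ≤ B := fun t ht x r hr =>
    ((hFm t ht x).1 hr).trans (hFm t ht x).2.2
  have hF0' : ∀ t ∈ Ico 0 T, ∀ x, ∀ r, 0 ≤ r → -B ≤ F t x r := fun t ht x r hr =>
    (hFm t ht x).2.1.trans ((hFm t ht x).1 hr)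
  have hIoo : ∀ t ∈ Ioo 0 T, t ∈ Ico 0 T := fun t ht => ⟨ht.1.le, ht.2⟩
  have huC : ContinuousOn (fun p : ℝ × S => uG (3 + 2 * B) p.1 p.2) (Ico 0 T ×ˢ univ) :=
    (uG_continuous _).continuousOn
  have hu1 : ∀ t ∈ Ico 0 T, ∀ x, uG (3 + 2 * B) t x ≤ 1 := by
    intro t ht x
    have h1 := gS_le x
    have h2 : 0 ≤ (3 + 2 * B) * t := mul_nonneg ha0 ht.1
    unfold uG
    linarith
  refine ⟨⟨?_, fun hFr => ?_⟩, fun c C₀ d hcc hc hC₀ hcd => ⟨?_, fun hFr => ?_⟩⟩
  · exact
      { bdd := ⟨1 + (3 + 2 * B) * T, fun t ht x => uG_bdd ha0 t ht x⟩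
        usc := huC.upperSemicontinuousOn
        visc := by
          intro i t₀ ht₀ z₀ hz₀ q hq hqu hmax
          have ht := hIoo t₀ ht₀
          refine uG_visc (hmB t₀ ht _).2 ?_ i t₀ z₀ (hO t₀ ht i z₀ hz₀).1 q hq hmax
          refine hF1' t₀ ht _ _ ?_
          rw [hqu]
          exact hu1 t₀ ht _ }
  · exact
      { bdd := ⟨1 + (3 + 2 * B) * T, fun t ht x => uG_bdd ha0 t ht x⟩
        usc := huC.upperSemicontinuousOn
        visc := by
          intro i t₀ ht₀ z₀ hz₀ q hq hmax
          have ht := hIoo t₀ ht₀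
          refine uG_visc (hmB t₀ ht _).2 ?_ i t₀ z₀ (hO t₀ ht i z₀ hz₀).1 q hq hmax
          exact (hFr t₀ _ _ 1).le.trans (hFm t₀ ht _).2.2 }
  · exact
      { bdd := ⟨C₀ + |d| + 4 * B * T, fun t ht x => vG_bdd hc hb0 t ht x⟩
        lsc := vG_lsc hcc hc hb0 hcd
        visc := by
          intro i t₀ ht₀ z₀ hz₀ q hq hqv hmin
          have ht := hIoo t₀ ht₀
          refine vG_visc (hmB t₀ ht _).1 le_rfl i t₀ z₀ ?_ (hO t₀ ht i z₀ hz₀).1
            (hO t₀ ht i z₀ hz₀).2 q hq hmin
          intro hE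
          refine hF0' t₀ ht _ _ ?_
          rw [hqv]
          have h2 : 0 ≤ 4 * B * t₀ := mul_nonneg hb0 ht.1
          show 0 ≤ vG c (4 * B) d t₀ (param i z₀)
          unfold vG
          rw [if_neg hE]
          linarith }
  · exact
      { bdd := ⟨C₀ + |d| + 4 * B * T, fun t ht x => vG_bdd hc hb0 t ht x⟩
        lsc := vG_lsc hcc hc hb0 hcd
        visc := by
          intro i t₀ ht₀ z₀ hz₀ q hq hmin
          have ht := hIoo t₀ ht₀
          refine vG_visc (hmB t₀ ht _).1 le_rfl i t₀ z₀ ?_ (hO t₀ ht i z₀ hz₀).1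
            (hO t₀ ht i z₀ hz₀).2 q hq hmin
          intro _
          exact (hFm t₀ ht _).2.1.trans (hFr t₀ _ _ _).le }

end Pool.Agent.H75.Dip
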